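import Pool.Agent.Helper31.CY.St4

/-!
# Project CY, module CQ3: at most five sets
-/

set_option autoImplicit false

open Set Topology Filter

namespace Pool.Agent.Helper94.CY

open Pool.Agent.Helper31.CY

theorem hCQ3 (hCQ1 : StCQ1) (hCQ2 : StCQ2) : StCQ3 := by
  intro r0 r1 h h0 hh
  let A : Set (Set E3) := {S | Discs S r0 r1 h}
  let B : Set (Set E3) := {S | Catn S r0 r1 h}
  let C : Set (Set E3) := {S | CatY S r0 r1 h}
  have hA : A.encard ≤ 1 := by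
    rw [Set.encard_le_one_iff]
    intro S T hS hT
    ext x
    exact (hS x).trans (hT x).symm
  have hB : B.encard ≤ 2 := by
    refine le_trans (Set.encard_le_encard (t := (fun m : ℝ =>
      {x : E3 | 0 ≤ x 2 ∧ x 2 ≤ h ∧ rad x = cat r0 m (x 2)}) '' {m : ℝ | cat r0 m h = r1}) ?_)
      ((Set.encard_image_le _ _).trans (hCQ1 r0 r1 h h0 hh))
    rintro S ⟨m, hm, hS⟩
    refine ⟨m, hm, ?_⟩
    ext x
    exact (hS x).symm
  have hC : C.encard ≤ 2 := by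
    refine le_trans (Set.encard_le_encard (t := (fun q : ℝ × ℝ =>
      {x : E3 | (0 ≤ x 2 ∧ x 2 ≤ h ∧ rad x = cat q.1 (1 / Real.sqrt 3) |x 2 - q.2|) ∨
        (x 2 = q.2 ∧ rad x ≤ q.1)}) '' {q : ℝ × ℝ | 0 < q.1 ∧ 0 < q.2 ∧ q.2 < h ∧
        cat q.1 (1 / Real.sqrt 3) q.2 = r0 ∧ cat q.1 (1 / Real.sqrt 3) (h - q.2) = r1}) ?_)
      ((Set.encard_image_le _ _).trans (hCQ2 r0 r1 h))
    rintro S ⟨ρ, t, h1, h2, h3, h4, h5, hS⟩
    refine ⟨(ρ, t), ⟨h1, h2, h3, h4, h5⟩, ?_⟩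
    ext x
    exact (hS x).symm
  have hU : {S : Set E3 | Discs S r0 r1 h ∨ Catn S r0 r1 h ∨ CatY S r0 r1 h} = A ∪ (B ∪ C) := rfl
  rw [hU]
  calc (A ∪ (B ∪ C)).encard ≤ A.encard + (B ∪ C).encard := Set.encard_union_le _ _
    _ ≤ 1 + (2 + 2) := by
        refine add_le_add hA ((Set.encard_union_le _ _).trans (add_le_add hB hC))
    _ = 5 := by norm_num

end Pool.Agent.Helper94.CY
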