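import Pool.Agent.Helper31.CY.St2

/-!
# Project CY, module CVX: the outermost radius is continuous and convex
-/

set_option autoImplicit false

open Set Topology Filter

namespace Pool.Agent.Helper94.CY

open Pool.Agent.Helper31.CY

private theorem three {f : ℝ → ℝ} {I : Set ℝ} (hf : ConvexOn ℝ I f) {a b s : ℝ} (ha : a ∈ I) (hb : b ∈ I)
    (h1 : a < s) (h2 : s < b) : (b - a) * f s ≤ (b - s) * f a + (s - a) * f b := by
  have hab : 0 < b - a := by linarith
  have p1 : 0 ≤ (b - s) / (b - a) := div_nonneg (by linarith) hab.le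
  have p2 : 0 ≤ (s - a) / (b - a) := div_nonneg (by linarith) hab.le
  have p3 : (b - s) / (b - a) + (s - a) / (b - a) = 1 := by field_simp; ring
  have h := hf.2 ha hb p1 p2 p3
  have e : ((b - s) / (b - a)) • a + ((s - a) / (b - a)) • b = s := by
    simp only [smul_eq_mul]; field_simp; ring
  rw [e] at h
  simp only [smul_eq_mul] at h
  have h3 : (b - a) * f s ≤ (b - a) * ((b - s) / (b - a) * f a + (s - a) / (b - a) * f b) :=
    mul_le_mul_of_nonneg_left h hab.le
  have e2 : (b - a) * ((b - s) / (b - a) * f a + (s - a) / (b - a) * f b) = (b - s) * f a + (s - a) * f b := by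
    field_simp
  linarith

/-- convexity from strict local support from the two sides -/
private theorem convex_of_local {f : ℝ → ℝ} {l r : ℝ} (hc : ContinuousOn f (Icc l r))
    (hl : ∀ t ∈ Ioo l r, ∃ m1 m2 ε : ℝ, 0 < ε ∧ m1 ≤ m2 ∧
      (∀ s, t - ε < s → s < t → f t + m1 * (s - t) < f s) ∧
      (∀ s, t < s → s < t + ε → f t + m2 * (s - t) < f s)) : ConvexOn ℝ (Icc l r) f := by
  apply LinearOrder.convexOn_of_lt (convex_Icc l r)
  intro x hx y hy hxy a b ha hb hab
  by_contra hcon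
  rw [not_le] at hcon
  simp only [smul_eq_mul] at hcon
  set z := a * x + b * y with hz
  have hzx : x < z := by
    have : z - x = b * (y - x) := by rw [hz]; linear_combination x * hab
    nlinarith [mul_pos hb (sub_pos.mpr hxy)]
  have hzy : z < y := by
    have : y - z = a * (y - x) := by rw [hz]; linear_combination (-y) * hab
    nlinarith [mul_pos ha (sub_pos.mpr hxy)]
  set lam := (f y - f x) / (y - x) with hlam
  have hyx : y - x ≠ 0 := (sub_pos.mpr hxy).ne'
  have hlam' : lam * (y - x) = f y - f x := by rw [hlam]; field_simp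
  let φ : ℝ → ℝ := fun s => f s - (f x + lam * (s - x))
  have hφc : ContinuousOn φ (Icc x y) := by
    apply ContinuousOn.sub
    · exact hc.mono (Icc_subset_Icc hx.1 hy.2)
    · fun_prop
  obtain ⟨s0, hs0, hmax⟩ := isCompact_Icc.exists_isMaxOn (nonempty_Icc.mpr hxy.le) hφc
  have hφz : 0 < φ z := by
    show 0 < f z - (f x + lam * (z - x))
    have h1 : z - x = b * (y - x) := by rw [hz]; linear_combination x * hab
    have h2 : lam * (z - x) = b * (f y - f x) := by rw [h1, ← hlam']; ring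
    have h3 : a * f x + b * f y = f x + b * (f y - f x) := by linear_combination (f x) * hab
    rw [h2]
    linarith
  have hφx : φ x = 0 := by show f x - (f x + lam * (x - x)) = 0; ring
  have hφy : φ y = 0 := by show f y - (f x + lam * (y - x)) = 0; rw [hlam']; ring
  have hs0pos : 0 < φ s0 := lt_of_lt_of_le hφz (hmax ⟨hzx.le, hzy.le⟩)
  have hs0x : x < s0 := by
    rcases eq_or_lt_of_le hs0.1 with h | h
    · rw [← h, hφx] at hs0pos; exact absurd hs0pos (lt_irrefl _)
    · exact h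
  have hs0y : s0 < y := by
    rcases eq_or_lt_of_le hs0.2 with h | h
    · rw [h, hφy] at hs0pos; exact absurd hs0pos (lt_irrefl _)
    · exact h
  obtain ⟨m1, m2, ε, hε, hm, hL, hR⟩ := hl s0 ⟨lt_of_le_of_lt hx.1 hs0x, lt_of_lt_of_le hs0y hy.2⟩
  -- right
  set d := min (ε / 2) (min ((y - s0) / 2) ((s0 - x) / 2)) with hd
  have hd0 : 0 < d := by
    rw [hd]
    exact lt_min (by linarith) (lt_min (by linarith) (by linarith))
  have hd1 : d ≤ ε / 2 := min_le_left _ _
  have hd2 : d ≤ (y - s0) / 2 := (min_le_right _ _).trans (min_le_left _ _)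
  have hd3 : d ≤ (s0 - x) / 2 := (min_le_right _ _).trans (min_le_right _ _)
  have r1 : φ (s0 + d) ≤ φ s0 := hmax ⟨by linarith, by linarith⟩
  have r2 := hR (s0 + d) (by linarith) (by linarith)
  have l1 : φ (s0 - d) ≤ φ s0 := hmax ⟨by linarith, by linarith⟩
  have l2 := hL (s0 - d) (by linarith) (by linarith)
  have r3 : f (s0 + d) - (f x + lam * (s0 + d - x)) ≤ f s0 - (f x + lam * (s0 - x)) := r1
  have l3 : f (s0 - d) - (f x + lam * (s0 - d - x)) ≤ f s0 - (f x + lam * (s0 - x)) := l1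
  have r4 : m2 * d < lam * d := by nlinarith
  have l4 : lam * d < m1 * d := by nlinarith
  nlinarith [mul_le_mul_of_nonneg_right hm hd0.le]

theorem hCVX (hCTF : StCTF) (hRHO : StRHO) (hLOA : StLOA) (hLOB : StLOB) : StCVX := by
  intro N r0 r1 h hN hS
  obtain ⟨ρ0, ρh, ρI, -⟩ := hRHO N r0 r1 h hN hS
  obtain ⟨A1, ⟨ma, εa, hεa, hA2, -⟩, ⟨mb, εb, hεb, hA3, -⟩, -, -⟩ := hLOA N r0 r1 h hN hS
  have hh : 0 < h := hN.h0
  -- local structure
  have loc : ∀ t ∈ Ioo 0 h, ∃ m1 m2 ε : ℝ, 0 < ε ∧ m1 ≤ m2 ∧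
      (∀ s ∈ Ioc (t - ε) t, rho N s = cat (rho N t) m1 (s - t)) ∧
      (∀ s ∈ Ico t (t + ε), rho N s = cat (rho N t) m2 (s - t)) := by
    intro t ht
    obtain ⟨hor, hcat⟩ := A1 t ht
    rcases hor with hc | hy
    · obtain ⟨m, ε, hε, h1, -⟩ := hcat hc
      refine ⟨m, m, ε, hε, le_rfl, fun s hs => h1 s ?_, fun s hs => h1 s ?_⟩
      · rw [abs_lt]; constructor <;> linarith [hs.1, hs.2]
      · rw [abs_lt]; constructor <;> linarith [hs.1, hs.2]
    · obtain ⟨m1, m2, ε, hε, hm, h1, h2, -⟩ := hLOB N r0 r1 h hN hS t ht hy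
      exact ⟨m1, m2, ε, hε, hm.le, h1, h2⟩
  have catc : ∀ r m t : ℝ, 0 < r → ContinuousAt (fun s => cat r m (s - t)) t := by
    intro r m t hr
    have h1 := ((hCTF r m hr).2.2.2.1 (t - t)).continuousAt
    exact ContinuousAt.comp (f := fun s : ℝ => s - t) (g := cat r m) h1 (by fun_prop)
  have cont : ContinuousOn (rho N) (Icc 0 h) := by
    intro t ht
    rcases eq_or_lt_of_le ht.1 with h0 | h0
    · -- left end
      subst h0
      have hr0 : 0 < r0 := hN.p0
      have e0 : cat r0 ma 0 = r0 := (hCTF r0 ma hr0).1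
      have h1 : ContinuousWithinAt (fun s => cat r0 ma (s - 0)) (Icc 0 h) 0 :=
        (catc r0 ma 0 hr0).continuousWithinAt
      refine h1.congr_of_eventuallyEq ?_ ?_
      · have : ∀ᶠ s in 𝓝[Icc 0 h] (0 : ℝ), s < εa :=
          mem_nhdsWithin_of_mem_nhds (Iio_mem_nhds hεa)
        filter_upwards [this, self_mem_nhdsWithin] with s hs1 hs2
        rw [hA2 s ⟨hs2.1, hs1⟩, sub_zero]
      · show rho N 0 = cat r0 ma (0 - 0)
        rw [sub_zero, e0, ρ0]
    rcases eq_or_lt_of_le ht.2 with h2 | h2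
    · subst h2
      have hr1 : 0 < r1 := hN.p1
      have e0 : cat r1 mb 0 = r1 := (hCTF r1 mb hr1).1
      have h1 : ContinuousWithinAt (fun s => cat r1 mb (s - t)) (Icc 0 t) t :=
        (catc r1 mb t hr1).continuousWithinAt
      refine h1.congr_of_eventuallyEq ?_ ?_
      · have : ∀ᶠ s in 𝓝[Icc 0 t] t, t - εb < s :=
          mem_nhdsWithin_of_mem_nhds (Ioi_mem_nhds (by linarith))
        filter_upwards [this, self_mem_nhdsWithin] with s hs1 hs2
        rw [hA3 s ⟨hs1, hs2.2⟩]
      · show rho N t = cat r1 mb (t - t)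
        rw [sub_self, e0, ρh]
    · -- interior
      obtain ⟨m1, m2, ε, hε, -, hl, hr⟩ := loc t ⟨h0, h2⟩
      have hρt : 0 < rho N t := (ρI t ht).2.1
      apply ContinuousAt.continuousWithinAt
      rw [continuousAt_iff_continuous_left_right]
      constructor
      · refine ((catc (rho N t) m1 t hρt).continuousWithinAt (s := Iic t)).congr_of_eventuallyEq ?_ ?_
        · have : ∀ᶠ s in 𝓝[Iic t] t, t - ε < s :=
            mem_nhdsWithin_of_mem_nhds (Ioi_mem_nhds (by linarith))
          filter_upwards [this, self_mem_nhdsWithin] with s hs1 hs2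
          exact hl s ⟨hs1, hs2⟩
        · exact hl t ⟨by linarith, le_rfl⟩
      · refine ((catc (rho N t) m2 t hρt).continuousWithinAt (s := Ici t)).congr_of_eventuallyEq ?_ ?_
        · have : ∀ᶠ s in 𝓝[Ici t] t, s < t + ε :=
            mem_nhdsWithin_of_mem_nhds (Iio_mem_nhds (by linarith))
          filter_upwards [this, self_mem_nhdsWithin] with s hs1 hs2
          exact hr s ⟨hs2, hs1⟩
        · exact hr t ⟨le_rfl, by linarith⟩
  have tang : ∀ r m τ : ℝ, 0 < r → τ ≠ 0 → r + m * τ < cat r m τ := fun r m τ hr hτ =>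
    (hCTF r m hr).2.2.2.2.2.2.2.2.1 τ hτ
  have conv : ConvexOn ℝ (Icc 0 h) (rho N) := by
    apply convex_of_local cont
    intro t ht
    obtain ⟨m1, m2, ε, hε, hm, hl, hr⟩ := loc t ht
    have hρt : 0 < rho N t := (ρI t ⟨ht.1.le, ht.2.le⟩).2.1
    refine ⟨m1, m2, ε, hε, hm, fun s h1 h2 => ?_, fun s h1 h2 => ?_⟩
    · rw [hl s ⟨h1, h2.le⟩]
      exact tang _ _ _ hρt (by intro h3; linarith)
    · rw [hr s ⟨h1.le, h2⟩]
      exact tang _ _ _ hρt (by intro h3; linarith)
  refine ⟨cont, conv, ?_⟩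
  intro t1 t2 m2 m1 ε h1 h12 h2 hε hR hL
  have hρ1 : 0 < rho N t1 := (ρI t1 ⟨h1.le, (h12.trans h2).le⟩).2.1
  have hρ2 : 0 < rho N t2 := (ρI t2 ⟨(h1.trans h12).le, h2.le⟩).2.1
  have I1 : t1 ∈ Icc 0 h := ⟨h1.le, (h12.trans h2).le⟩
  have I2 : t2 ∈ Icc 0 h := ⟨(h1.trans h12).le, h2.le⟩
  set d := min (ε / 2) ((t2 - t1) / 2) with hd
  have hd0 : 0 < d := by rw [hd]; exact lt_min (by linarith) (by linarith)
  have hd1 : d ≤ ε / 2 := min_le_left _ _
  have hd2 : d ≤ (t2 - t1) / 2 := min_le_right _ _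
  have a1 : rho N t1 + m2 * d < rho N (t1 + d) := by
    rw [hR (t1 + d) ⟨by linarith, by linarith⟩]
    have := tang (rho N t1) m2 (t1 + d - t1) hρ1 (by intro h3; linarith)
    have e : t1 + d - t1 = d := by ring
    rw [e] at this ⊢
    exact this
  have a2 : rho N t2 - m1 * d < rho N (t2 - d) := by
    rw [hL (t2 - d) ⟨by linarith, by linarith⟩]
    have := tang (rho N t2) m1 (t2 - d - t2) hρ2 (by intro h3; linarith)
    have e : t2 - d - t2 = -d := by ring
    rw [e] at this ⊢
    linarith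
  have b1 := three conv I1 I2 (s := t1 + d) (by linarith) (by linarith)
  have b2 := three conv I1 I2 (s := t2 - d) (by linarith) (by linarith)
  have c1 : d * (m2 * (t2 - t1)) < d * (rho N t2 - rho N t1) := by
    have := mul_lt_mul_of_pos_left a1 (by linarith : (0 : ℝ) < t2 - t1)
    nlinarith
  have c2 : d * (rho N t2 - rho N t1) < d * (m1 * (t2 - t1)) := by
    have := mul_lt_mul_of_pos_left a2 (by linarith : (0 : ℝ) < t2 - t1)
    nlinarith
  have c3 : m2 * (t2 - t1) < m1 * (t2 - t1) := by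
    have := c1.trans c2
    exact lt_of_mul_lt_mul_left this hd0.le
  exact (lt_of_mul_lt_mul_right c3 (by linarith)).le

end Pool.Agent.Helper94.CY
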